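import Mathlib

/-!
Perfect images of weakly theta-refinable spaces.
-/

set_option autoImplicit false

namespace Pool.Agent.H254Z.WT

open Set Topology Filter

variable {X Y : Type*} [TopologicalSpace X] [TopologicalSpace Y]

/-- The weak theta-refinement condition for the cover `U`, at the points of `E` only. -/
def Small (U : Set (Set Y)) (E : Set Y) : Prop :=
  ∃ V : ℕ → Set (Set Y), (∀ n, ∀ v ∈ V n, IsOpen v ∧ ∃ u ∈ U, v ⊆ u) ∧
    ∀ x ∈ E, ∃ n, {v | v ∈ V n ∧ x ∈ v}.Nonempty ∧ {v | v ∈ V n ∧ x ∈ v}.Finite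

theorem small_iUnion {ι : Type} [Countable ι] [Nonempty ι] {U : Set (Set Y)} (E : ι → Set Y)
    (h : ∀ i, Small U (E i)) : Small U (⋃ i, E i) := by
  choose V hV1 hV2 using h
  obtain ⟨g, hg⟩ := exists_surjective_nat (ι × ℕ)
  refine ⟨fun n => V (g n).1 (g n).2, fun n => hV1 _ _, fun x hx => ?_⟩
  obtain ⟨i, hi⟩ := mem_iUnion.1 hx
  obtain ⟨n, hn⟩ := hV2 i x hi
  obtain ⟨m, hm⟩ := hg (i, n)
  refine ⟨m, ?_⟩
  simp only [hm]
  exact hn

theorem small_of_locFin {ι : Type*} {U : Set (Set Y)} (hUo : ∀ u ∈ U, IsOpen u) (F : ι → Set Y)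
    (hU : ∀ i, (F i).Nonempty → ∃ u ∈ U, F i ⊆ u) (E : Set Y)
    (hE : ∀ y ∈ E, (∃ i, y ∈ F i) ∧ ∃ W ∈ 𝓝 y, {i | (F i ∩ W).Nonempty}.Finite) :
    Small U E := by
  classical
  choose! u hu huF using hU
  let O : Finset ι → Set Y := fun A => interior {y | ∀ i, i ∉ A → y ∉ F i}
  refine ⟨fun k => {w | ∃ A : Finset ι, A.card = k ∧ ∃ a ∈ A, (F a).Nonempty ∧ w = O A ∩ u a},
    ?_, ?_⟩
  · rintro k w ⟨A, -, a, -, ha, rfl⟩
    exact ⟨isOpen_interior.inter (hUo _ (hu a ha)), u a, hu a ha, inter_subset_right⟩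
  · intro y hy
    obtain ⟨⟨a, ha⟩, W, hW, hfin⟩ := hE y hy
    have hex : ∃ k, ∃ A : Finset ι, A.card = k ∧ y ∈ O A := by
      refine ⟨_, hfin.toFinset, rfl, mem_interior_iff_mem_nhds.2 (mem_of_superset hW ?_)⟩
      intro z hz i hi hzi
      exact hi (hfin.mem_toFinset.2 ⟨z, hzi, hz⟩)
    obtain ⟨A, hA, hyA⟩ := Nat.find_spec hex
    have huniq : ∀ A' : Finset ι, A'.card = Nat.find hex → y ∈ O A' → A' = A := by
      intro A' hA' hyA'
      have h1 : y ∈ O (A ∩ A') := by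
        refine mem_interior_iff_mem_nhds.2 (mem_of_superset (inter_mem
          (mem_interior_iff_mem_nhds.1 hyA) (mem_interior_iff_mem_nhds.1 hyA')) ?_)
        rintro z ⟨z1, z2⟩ i hi
        by_cases h : i ∈ A
        · exact z2 i fun h' => hi (Finset.mem_inter.2 ⟨h, h'⟩)
        · exact z1 i h
      have h2 : Nat.find hex ≤ (A ∩ A').card := Nat.find_min' hex ⟨_, rfl, h1⟩
      have h3 : A ∩ A' = A := Finset.eq_of_subset_of_card_le Finset.inter_subset_left (by omega)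
      have h4 : A ∩ A' = A' := Finset.eq_of_subset_of_card_le Finset.inter_subset_right (by omega)
      rw [← h4, h3]
    have haA : a ∈ A := by
      by_contra h
      exact interior_subset hyA a h ha
    refine ⟨Nat.find hex, ⟨O A ∩ u a, ⟨A, hA, a, haA, ⟨y, ha⟩, rfl⟩, hyA, huF a ⟨y, ha⟩ ha⟩, ?_⟩
    refine (A.finite_toSet.image (fun a => O A ∩ u a)).subset ?_
    rintro w ⟨⟨A', hA', a', ha', -, rfl⟩, hw⟩
    have := huniq A' hA' hw.1
    subst this
    exact ⟨a', ha', rfl⟩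

/-- Points at which the pieces of `T ∩ H` (labelled by `c`) are not locally finite. -/
def Der {ι : Type*} (T : Set X) (c : X → ι) (H : Set X) : Set X :=
  {x | ∀ O ∈ 𝓝 x, {i | ∃ z ∈ O, z ∈ T ∧ z ∈ H ∧ c z = i}.Infinite}

theorem isClosed_der {ι : Type*} (T : Set X) (c : X → ι) (H : Set X) : IsClosed (Der T c H) := by
  rw [isClosed_iff_nhds]
  intro x hx O hO
  obtain ⟨z, hz1, hz2⟩ := hx (interior O) (interior_mem_nhds.2 hO)
  exact hz2 O (mem_interior_iff_mem_nhds.1 hz1)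

theorem der_subset {ι : Type*} (T : Set X) (c : X → ι) {H : Set X} (hH : IsClosed H) :
    Der T c H ⊆ H := by
  intro x hx
  rw [isClosed_iff_nhds] at hH
  refine hH x fun O hO => ?_
  obtain ⟨i, z, z1, -, z3, -⟩ := (hx O hO).nonempty
  exact ⟨z, z1, z3⟩

theorem der_disjoint {ι : Type*} {T : Set X} {c : X → ι}
    (hc : ∀ x ∈ T, ∃ O ∈ 𝓝 x, ∀ z ∈ O, z ∈ T → c z = c x) (H : Set X) {x : X}
    (hx : x ∈ Der T c H) : x ∉ T := by
  intro hT
  obtain ⟨O, hO, h⟩ := hc x hT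
  refine hx O hO ((finite_singleton (c x)).subset ?_)
  rintro i ⟨z, z1, z2, -, rfl⟩
  exact h z z1 z2

theorem small_step {ι : Type*} {f : X → Y} (hcl : IsClosedMap f)
    (hK : ∀ y, IsCompact (f ⁻¹' {y})) {U : Set (Set Y)} (hUo : ∀ u ∈ U, IsOpen u)
    (T : Set X) (c : X → ι) (hT : ∀ x ∈ T, ∃ u ∈ U, ∀ z ∈ T, c z = c x → f z ∈ u) (H : Set X) :
    Small U (f '' (T ∩ H) \ f '' Der T c H) := by
  refine small_of_locFin hUo (fun i => f '' {z | z ∈ T ∧ z ∈ H ∧ c z = i}) ?_ _ ?_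
  · rintro i ⟨_, x, ⟨x1, -, rfl⟩, rfl⟩
    obtain ⟨u, hu, h⟩ := hT x x1
    refine ⟨u, hu, ?_⟩
    rintro _ ⟨z, ⟨z1, -, z3⟩, rfl⟩
    exact h z z1 z3
  · rintro y ⟨⟨x, ⟨x1, x2⟩, hxy⟩, hy⟩
    refine ⟨⟨c x, x, ⟨x1, x2, rfl⟩, hxy⟩, ?_⟩
    have h1 : ∀ z ∈ f ⁻¹' {y}, ∃ O ∈ 𝓝 z, {i | ∃ w ∈ O, w ∈ T ∧ w ∈ H ∧ c w = i}.Finite := by
      intro z hz
      by_contra hcon
      push Not at hcon
      exact hy ⟨z, fun O hO => hcon O hO, hz⟩
    choose! O hO hfin using h1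
    obtain ⟨t, ht1, ht2⟩ := (hK y).elim_nhds_subcover (fun z => interior (O z))
      (fun z hz => interior_mem_nhds.2 (hO z hz))
    refine ⟨(f '' (⋃ z ∈ t, interior (O z))ᶜ)ᶜ, ?_, ?_⟩
    · refine (hcl _ (isOpen_biUnion fun z _ => isOpen_interior).isClosed_compl).isOpen_compl.mem_nhds ?_
      rintro ⟨z, hz, hzy⟩
      exact hz (ht2 hzy)
    · refine (t.finite_toSet.biUnion (fun z hz => hfin z (ht1 z hz))).subset ?_
      rintro i ⟨_, ⟨w, ⟨w1, w2, w3⟩, rfl⟩, hw⟩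
      have : w ∈ ⋃ z ∈ t, interior (O z) := by
        by_contra hcon
        exact hw ⟨w, hcon, rfl⟩
      obtain ⟨z, hz, hwz⟩ := mem_iUnion₂.1 this
      exact mem_biUnion hz ⟨w, interior_subset hwz, w1, w2, w3⟩

/-- The tree of closed sets. -/
def tree {ι : Type*} (T : ℕ → Set X) (c : ℕ → X → ι) : List Bool → Set X
  | [] => univ
  | false :: s => tree T c s
  | true :: s => Der (T s.length) (c s.length) (tree T c s)

theorem isClosed_tree {ι : Type*} (T : ℕ → Set X) (c : ℕ → X → ι) :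
    ∀ s, IsClosed (tree T c s)
  | [] => isClosed_univ
  | false :: s => isClosed_tree T c s
  | true :: _ => isClosed_der _ _ _

theorem tree_cons_subset {ι : Type*} (T : ℕ → Set X) (c : ℕ → X → ι) (b : Bool) (s : List Bool) :
    tree T c (b :: s) ⊆ tree T c s := by
  cases b
  · exact subset_rfl
  · exact der_subset _ _ (isClosed_tree T c s)

theorem small_univ {ι : Type*} {f : X → Y} (hs : Function.Surjective f) (hcl : IsClosedMap f)
    (hK : ∀ y, IsCompact (f ⁻¹' {y})) {U : Set (Set Y)} (hUo : ∀ u ∈ U, IsOpen u)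
    (T : ℕ → Set X) (c : ℕ → X → ι) (hcov : ∀ x, ∃ j, x ∈ T j)
    (hc : ∀ j, ∀ x ∈ T j, ∃ O ∈ 𝓝 x, ∀ z ∈ O, z ∈ T j → c j z = c j x)
    (hT : ∀ j, ∀ x ∈ T j, ∃ u ∈ U, ∀ z ∈ T j, c j z = c j x → f z ∈ u) : Small U univ := by
  have h1 := small_iUnion (U := U) (fun s : List Bool =>
    f '' (T s.length ∩ tree T c s) \ f '' Der (T s.length) (c s.length) (tree T c s))
    (fun s => small_step hcl hK hUo _ _ (hT _) _)
  convert h1
  symm
  rw [eq_univ_iff_forall]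
  intro y
  by_contra hy
  have hy' : ∀ s : List Bool, y ∈ f '' (T s.length ∩ tree T c s) →
      y ∈ f '' Der (T s.length) (c s.length) (tree T c s) := by
    intro s h
    by_contra h'
    exact hy (mem_iUnion.2 ⟨s, h, h'⟩)
  have hstep : ∀ s : List Bool, y ∈ f '' tree T c s → ∃ b : Bool, y ∈ f '' tree T c (b :: s) ∧
      ∀ x ∈ tree T c (b :: s), f x = y → x ∉ T s.length := by
    intro s h
    by_cases h2 : y ∈ f '' (T s.length ∩ tree T c s)
    · exact ⟨true, hy' s h2, fun x hx _ => der_disjoint (hc _) _ hx⟩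
    · exact ⟨false, h, fun x hx hxy hxT => h2 ⟨x, ⟨hxT, hx⟩, hxy⟩⟩
  choose! nb hnb1 hnb2 using hstep
  let p : ℕ → List Bool := fun n => Nat.rec [] (fun _ s => nb s :: s) n
  have hp : ∀ n, p (n + 1) = nb (p n) :: p n := fun _ => rfl
  have hlen : ∀ n, (p n).length = n := by
    intro n
    induction n with
    | zero => rfl
    | succ n ih => rw [hp, List.length_cons, ih]
  have hmem : ∀ n, y ∈ f '' tree T c (p n) := by
    intro n
    induction n with
    | zero =>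
      obtain ⟨x, hx⟩ := hs y
      exact ⟨x, mem_univ _, hx⟩
    | succ n ih => exact hnb1 _ ih
  have hanti : Antitone fun n => tree T c (p n) :=
    antitone_nat_of_succ_le fun n => tree_cons_subset T c _ _
  obtain ⟨x, hx1, hx2⟩ := (hK y).inter_iInter_nonempty (fun n => tree T c (p n))
    (fun n => isClosed_tree T c _) (fun t => by
      obtain ⟨x, hx, hxy⟩ := hmem (t.sup id)
      exact ⟨x, hxy, mem_iInter₂.2 fun n hn => hanti (Finset.le_sup (f := id) hn) hx⟩)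
  obtain ⟨j, hj⟩ := hcov x
  have := hnb2 (p j) (hmem j) x (mem_iInter.1 hx2 (j + 1)) hx1
  rw [hlen] at this
  exact this hj

theorem perfect_image {f : X → Y} (hf : Continuous f) (hs : Function.Surjective f)
    (hcl : IsClosedMap f) (hK : ∀ y, IsCompact (f ⁻¹' {y}))
    (hX : ∀ U : Set (Set X), (∀ u ∈ U, IsOpen u) → ⋃₀ U = univ → Small U univ)
    (U : Set (Set Y)) (hUo : ∀ u ∈ U, IsOpen u) (hcov : ⋃₀ U = univ) : Small U univ := by
  obtain ⟨V, hV1, hV2⟩ := hX ((fun u => f ⁻¹' u) '' U)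
    (by
      rintro _ ⟨u, hu, rfl⟩
      exact (hUo u hu).preimage hf)
    (by
      rw [eq_univ_iff_forall]
      intro x
      obtain ⟨u, hu, hx⟩ : f x ∈ ⋃₀ U := hcov ▸ mem_univ _
      exact ⟨_, ⟨u, hu, rfl⟩, hx⟩)
  let B : ℕ → X → Set (Set X) := fun n x => {v | v ∈ V n ∧ x ∈ v}
  refine small_univ hs hcl hK hUo
    (fun j => {x | (B j.unpair.1 x).ncard = j.unpair.2 + 1}) (fun j x => B j.unpair.1 x) ?_ ?_ ?_
  · intro x
    obtain ⟨n, h1, h2⟩ := hV2 x (mem_univ x)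
    have h3 : 0 < (B n x).ncard := (ncard_pos h2).2 h1
    refine ⟨Nat.pair n ((B n x).ncard - 1), ?_⟩
    simp only [Nat.unpair_pair, mem_ofPred_eq]
    omega
  · intro j x hx
    have hx' : (B j.unpair.1 x).ncard = j.unpair.2 + 1 := hx
    have hfin : (B j.unpair.1 x).Finite := finite_of_ncard_pos (by omega)
    refine ⟨⋂₀ B j.unpair.1 x, ?_, fun z hz hzT => ?_⟩
    · exact (hfin.isOpen_sInter fun v hv => (hV1 _ v hv.1).1).mem_nhds fun v hv => hv.2
    · have hz' : (B j.unpair.1 z).ncard = j.unpair.2 + 1 := hzT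
      have hsub : B j.unpair.1 x ⊆ B j.unpair.1 z := fun v hv => ⟨hv.1, hz v hv⟩
      exact (eq_of_subset_of_ncard_le hsub (by omega) (finite_of_ncard_pos (by omega))).symm
  · intro j x hx
    have hx' : (B j.unpair.1 x).ncard = j.unpair.2 + 1 := hx
    obtain ⟨v, hv⟩ := nonempty_of_ncard_ne_zero (s := B j.unpair.1 x) (by omega)
    obtain ⟨-, _, ⟨u, hu, rfl⟩, hvu⟩ := hV1 _ v hv.1
    refine ⟨u, hu, fun z _ hz => ?_⟩
    have : v ∈ B j.unpair.1 z := by
      have hz' : B j.unpair.1 z = B j.unpair.1 x := hz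
      rw [hz']
      exact hv
    exact hvu this.2

end Pool.Agent.H254Z.WT
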